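import Pool.Agent.W593.ZT.Stm

/-! Project ZT (helper593): the base hub set. -/

open scoped Classical

set_option autoImplicit false

namespace Pool.Agent.W303.ZT

open Pool.Agent.W593.ZT

theorem base (hBT : S_BT) (hB8 : S_B8) (hB6 : S_B6) (hM : S_MONO) : S_BASE := by
  intro V G _ _ _ c hC h2 hR
  have hcard := hC.card
  -- the minimum
  obtain ⟨a0, b0, hab0⟩ : ∃ a b : G, a ≠ b := by
    have : 1 < Fintype.card G := h2
    obtain ⟨a, b, h⟩ := Fintype.one_lt_card_iff.mp this
    exact ⟨a, b, h⟩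
  have hVne : 0 < Fintype.card V := by omega
  obtain ⟨x0⟩ : Nonempty V := Fintype.card_pos_iff.mp hVne
  have hex : ∃ n, ∃ (x : V) (g g' : G), g ≠ g' ∧ (Rs c x g g').card = n :=
    ⟨_, x0, a0, b0, hab0, rfl⟩
  set r := Nat.find hex with hr
  obtain ⟨x, g1, g2, hg, hrx⟩ := Nat.find_spec hex
  rw [← hr] at hrx
  have hmin : ∀ x g g', g ≠ g' → r ≤ (Rs c x g g').card := fun x g g' h =>
    Nat.find_min' hex ⟨x, g, g', h, rfl⟩
  have hr2 : 2 ≤ r := by rw [← hrx]; exact hR x g1 g2 hg
  -- upper bound of r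
  have hrm : r + 2 ≤ Fintype.card G := by
    obtain ⟨p, hpx, hpc, -⟩ := hM V G c hC x a0
    obtain ⟨p', hpx', hpc', -⟩ := hM V G c hC x (c x p)
    have hle := hmin x (c x p) (c x p') (fun h => hpc' h.symm)
    have hsub : Rs c x (c x p) (c x p') ⊆ Finset.univ \ {x, p, p'} := by
      intro z hz
      unfold Rs at hz
      rw [Finset.mem_filter] at hz
      obtain ⟨-, hz1, hz2, hz3⟩ := hz
      simp only [Finset.mem_sdiff, Finset.mem_univ, true_and, Finset.mem_insert,
        Finset.mem_singleton, not_or]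
      refine ⟨hz1, ?_, ?_⟩
      · rintro rfl; exact hz2 rfl
      · rintro rfl; exact hz3 rfl
    have hc3 : ({x, p, p'} : Finset V).card = 3 := by
      rw [Finset.card_eq_three]
      refine ⟨x, p, p', hpx.symm, hpx'.symm, ?_, rfl⟩
      rintro rfl
      exact hpc' rfl
    have := Finset.card_le_card hsub
    rw [Finset.card_sdiff_of_subset (Finset.subset_univ _), hc3, Finset.card_univ, hcard] at this
    omega
  -- the set T
  obtain ⟨p1, hp1x, hp1c, hp1⟩ := hM V G c hC x g1
  obtain ⟨p2, hp2x, hp2c, hp2⟩ := hM V G c hC x g2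
  obtain ⟨T, hsT, hT⟩ := Finset.exists_superset_card_eq (s := {x, p1, p2}) (n := 3)
    (Finset.card_le_three) (by omega)
  have hxT : x ∈ T := hsT (by simp)
  have hp1T : p1 ∈ T := hsT (by simp)
  have hp2T : p2 ∈ T := hsT (by simp)
  have hn1 : n1 c T ≤ r := by
    rw [← hrx]
    unfold n1
    apply Finset.card_le_card
    intro z hz
    rw [Finset.mem_filter, Finset.mem_sdiff] at hz
    obtain ⟨⟨-, hzT⟩, hz1⟩ := hz
    obtain ⟨a, ha⟩ := Finset.card_eq_one.mp hz1
    have hall : ∀ y ∈ T, c z y = a := by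
      intro y hy
      have : c z y ∈ Cs c T z := Finset.mem_image_of_mem _ hy
      rw [ha, Finset.mem_singleton] at this
      exact this
    have hzx : z ≠ x := fun h => hzT (h ▸ hxT)
    have hxz : c x z = a := by rw [hC.sym]; exact hall x hxT
    unfold Rs
    rw [Finset.mem_filter]
    refine ⟨Finset.mem_univ _, hzx, ?_, ?_⟩
    · intro h
      apply hp1 z hzx h
      rw [hall p1 hp1T, ← hxz, h]
    · intro h
      apply hp2 z hzx h
      rw [hall p2 hp2T, ← hxz, h]
  rcases hBT V G c hC r hr2 hrm hmin T hT hn1 with h | ⟨h1, h3, h4, h5, h6⟩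
  · exact h
  · by_cases hm6 : Fintype.card G = 6
    · obtain ⟨T', hT', hn'⟩ := hB6 V G c hC hR T hT h3 h4 hm6
      rw [h1] at hmin
      rcases hBT V G c hC 2 le_rfl (by omega) hmin T' hT' (by omega) with h | ⟨-, h7, -⟩
      · exact h
      · omega
    · exact hB8 V G c hC hR T hT h3 h4 (by omega)

end Pool.Agent.W303.ZT
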